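import Pool.Agent.helper58.CRO.SpecG

/-!
# Row GDD: from balls of radius `s ≤ Inj/2` to balls of radius `r ≤ Inj`
-/

set_option autoImplicit false

open scoped Manifold ContDiff Topology ENNReal
open MeasureTheory Set Bundle Filter

noncomputable section

namespace Pool.Agent.CRO

universe u

theorem GDD (h1 : GDJ_stmt.{u}) (h2 : GVD_stmt.{u}) : GDD_stmt.{u} := by
  intro n hn M _ _ _ _ _ _ g c hc hball m r hr hinj
  have key : ∀ r' : ℝ, 0 < r' → r' < r →
      ENNReal.ofReal (2 * c * (r' / 2) ^ n) ≤ gvol g (gball g m r) := by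
    intro r' hr' hlt
    have hlt2 : ENNReal.ofReal r' < injRad g :=
      lt_of_lt_of_le ((ENNReal.ofReal_lt_ofReal_iff hr).2 hlt) hinj
    have hle : ENNReal.ofReal r' ≤ injRad g := hlt2.le
    unfold injRad at hlt2
    rw [lt_iSup_iff] at hlt2
    obtain ⟨r2, hlt3⟩ := hlt2
    rw [lt_iSup_iff] at hlt3
    obtain ⟨⟨hr2, hinj2⟩, hlt4⟩ := hlt3
    have h2r : r' < r2 := (ENNReal.ofReal_lt_ofReal_iff hr2).1 hlt4
    obtain ⟨m1, m2, hd, hs1, hs2⟩ := h1 n hn M g m r' r2 hr' h2r hinj2
    have hsub : gball g m r' ⊆ gball g m r :=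
      fun _ hx => lt_of_lt_of_le hx (ENNReal.ofReal_le_ofReal hlt.le)
    have hv := h2 n M g _ _ (gball g m r) hd (hs1.trans hsub) (hs2.trans hsub)
    have h2s : ENNReal.ofReal (2 * (r' / 2)) ≤ injRad g := by
      rw [show 2 * (r' / 2) = r' by ring]
      exact hle
    have hb1 := hball m1 (r' / 2) (by linarith) h2s
    have hb2 := hball m2 (r' / 2) (by linarith) h2s
    have hnn : 0 ≤ c * (r' / 2) ^ n := by positivity
    calc ENNReal.ofReal (2 * c * (r' / 2) ^ n)
        = ENNReal.ofReal (c * (r' / 2) ^ n) + ENNReal.ofReal (c * (r' / 2) ^ n) := by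
          rw [← ENNReal.ofReal_add hnn hnn]
          congr 1
          ring
      _ ≤ gvol g (gball g m1 (r' / 2)) + gvol g (gball g m2 (r' / 2)) := add_le_add hb1 hb2
      _ ≤ gvol g (gball g m r) := hv
  have hcont : Continuous (fun r' : ℝ => ENNReal.ofReal (2 * c * (r' / 2) ^ n)) := by
    refine ENNReal.continuous_ofReal.comp ?_
    exact continuous_const.mul ((continuous_id.div_const _).pow n)
  have htend : Filter.Tendsto (fun r' : ℝ => ENNReal.ofReal (2 * c * (r' / 2) ^ n)) (𝓝[<] r)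
      (𝓝 (ENNReal.ofReal (2 * c * (r / 2) ^ n))) :=
    (hcont.tendsto r).mono_left nhdsWithin_le_nhds
  refine le_of_tendsto htend ?_
  filter_upwards [Ioo_mem_nhdsLT hr] with r' hr'
  exact key r' hr'.1 hr'.2

end Pool.Agent.CRO
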