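import Pool.Agent.helper58.CRO.SpecI

/-!
# Row IFX: the flux inequality
-/

open scoped Manifold ContDiff Topology ENNReal
open MeasureTheory Set

noncomputable section

namespace Pool.Agent.CRO

private lemma IFX_up (f : ℝ → ℝ) (hf : Continuous f) (p q a b : ℝ) (hpq : p ≤ q)
    (hp : f p ≤ a) (hab : a < b) (hq : b ≤ f q) :
    ∃ u1 u2, p ≤ u1 ∧ u1 < u2 ∧ u2 ≤ q ∧ f u1 ≤ a ∧ b ≤ f u2 ∧
      ∀ u ∈ Ioo u1 u2, a < f u ∧ f u < b := by
  have hS : IsCompact (Icc p q ∩ f ⁻¹' (Ici b)) :=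
    isCompact_Icc.inter_right (isClosed_Ici.preimage hf)
  obtain ⟨u2, hu2⟩ := hS.exists_isLeast ⟨q, ⟨hpq, le_rfl⟩, hq⟩
  have hT : IsCompact (Icc p u2 ∩ f ⁻¹' (Iic a)) :=
    isCompact_Icc.inter_right (isClosed_Iic.preimage hf)
  obtain ⟨u1, hu1⟩ := hT.exists_isGreatest ⟨p, ⟨le_rfl, hu2.1.1.1⟩, hp⟩
  have h1a : f u1 ≤ a := hu1.1.2
  have h2b : b ≤ f u2 := hu2.1.2
  refine ⟨u1, u2, hu1.1.1.1, ?_, hu2.1.1.2, h1a, h2b, ?_⟩
  · rcases lt_or_eq_of_le hu1.1.1.2 with h | h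
    · exact h
    · exfalso
      rw [h] at h1a
      linarith
  · intro u hu
    constructor
    · by_contra h
      push Not at h
      have hm : u ∈ Icc p u2 ∩ f ⁻¹' (Iic a) := ⟨⟨hu1.1.1.1.trans hu.1.le, hu.2.le⟩, h⟩
      exact absurd (hu1.2 hm) (not_le.mpr hu.1)
    · by_contra h
      push Not at h
      have hm : u ∈ Icc p q ∩ f ⁻¹' (Ici b) :=
        ⟨⟨hu1.1.1.1.trans hu.1.le, hu.2.le.trans hu2.1.1.2⟩, h⟩
      exact absurd (hu2.2 hm) (not_le.mpr hu.2)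

private lemma IFX_cross (f : ℝ → ℝ) (hf : Continuous f) (α β u0 a b σ : ℝ)
    (hσ : σ = 1 ∨ σ = -1) (hu0 : u0 ∈ Ioo α β) (h0 : f u0 ≤ a) (hab : a < b)
    (hα : b ≤ f α) (hβ : b ≤ f β) :
    ∃ u1 u2, α ≤ u1 ∧ u1 < u2 ∧ u2 ≤ β ∧ b - a ≤ σ * f u2 - σ * f u1 ∧
      ∀ u ∈ Ioo u1 u2, a < f u ∧ f u < b := by
  rcases hσ with rfl | rfl
  · obtain ⟨u1, u2, h1, h2, h3, h4, h5, h6⟩ := IFX_up f hf u0 β a b hu0.2.le h0 hab hβ
    exact ⟨u1, u2, hu0.1.le.trans h1, h2, h3, by linarith, h6⟩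
  · obtain ⟨v1, v2, h1, h2, h3, h4, h5, h6⟩ := IFX_up (fun u => f (-u))
      (hf.comp continuous_neg) (-u0) (-α) a b (by linarith [hu0.1]) (by simpa using h0) hab
      (by simpa using hα)
    refine ⟨-v2, -v1, by linarith, by linarith, by linarith [hu0.2], ?_, ?_⟩
    · have h4' : f (-v1) ≤ a := h4
      have h5' : b ≤ f (-v2) := h5
      linarith
    · intro u hu
      have h7 := h6 (-u) ⟨by linarith [hu.2], by linarith [hu.1]⟩
      simpa using h7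

private lemma IFX_ofReal_integral_le {φ : ℝ → ℝ} {μ : Measure ℝ} (hφ : Integrable φ μ) :
    ENNReal.ofReal (∫ x, φ x ∂μ) ≤ ∫⁻ x, ENNReal.ofReal (φ x) ∂μ := by
  apply ENNReal.ofReal_le_of_le_toReal
  rw [integral_eq_lintegral_pos_part_sub_lintegral_neg_part hφ]
  have : 0 ≤ (∫⁻ x, ENNReal.ofReal (-φ x) ∂μ).toReal := ENNReal.toReal_nonneg
  linarith

private lemma IFX_key (h1 : IWN_stmt) (h2 : INV_stmt) (h5 : DNM_stmt)
    {n : ℕ} {r0 : ℝ} {𝒢 : NChart n r0} {L R e r1 : ℝ} {H : PS n → ℝ} {Φ : ℝ → PS n → PS n}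
    (hS : Std 𝒢 L R e r1 H Φ) {ρ ρa ρb : ℝ} (hρ : 0 < ρ) (hρa : ρ ≤ ρa) (hab : ρa < ρb)
    (hρb : ρb ≤ R) {σ : ℝ} (hσ : σ = 1 ∨ σ = -1) {z : PS n} (hz : z ∈ SL 𝒢 e R)
    (hH : z ∈ Hit Φ R ρ) :
    ∃ u1 u2 : ℝ, Ioo u1 u2 ⊆ {u | Stay Φ R z u} ∧
      (∀ u ∈ Ioo u1 u2, ρa ≤ ‖(Φ u z).1‖ ∧ ‖(Φ u z).1‖ < ρb) ∧
      ENNReal.ofReal (ρb - ρa) ≤ ENNReal.ofReal (sp 𝒢 z) *
        ∫⁻ u in Ioo u1 u2, ENNReal.ofReal (σ * rc 𝒢 (Φ u z)) := by
  obtain ⟨α, β, hα, hβ, hst, -, -, hfα, hfβ, hin⟩ := h1 n r0 𝒢 L R e r1 H Φ hS z hz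
  obtain ⟨u0, hu0, hfu0⟩ := hH
  rw [hst] at hu0
  have hcz : Continuous fun u => Φ u z :=
    hS.fl.cont.comp (continuous_id.prodMk continuous_const)
  have hf : Continuous fun u => ‖(Φ u z).1‖ := (continuous_fst.comp hcz).norm
  obtain ⟨u1, u2, hu1, h12, hu2, hdiff, hbt⟩ := IFX_cross (fun u => ‖(Φ u z).1‖) hf α β u0 ρa ρb σ
    hσ hu0 (by linarith) hab (by linarith) (by linarith)
  have hρa0 : 0 < ρa := by linarith
  have hsub : Ioo u1 u2 ⊆ {u | Stay Φ R z u} := by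
    intro u hu
    show Stay Φ R z u
    rw [hst]
    exact ⟨lt_of_le_of_lt hu1 hu.1, lt_of_lt_of_le hu.2 hu2⟩
  have hsp : 0 < sp 𝒢 z := lt_trans hS.epos hz.2.1
  have hn : nrm2 𝒢 z < 1 := by
    have h6 : Real.sqrt (nrm2 𝒢 z) < 1 := hz.2.2
    rw [Real.sqrt_lt' one_pos] at h6
    linarith
  refine ⟨u1, u2, hsub, fun u hu => ⟨(hbt u hu).1.le, (hbt u hu).2⟩, ?_⟩
  -- the derivative
  set φ : ℝ → ℝ := fun u => σ * (inner ℝ (Φ u z).1 (Φ u z).2 / max ρa ‖(Φ u z).1‖) with hφ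
  have hφc : Continuous φ := by
    apply continuous_const.mul
    apply Continuous.div
    · exact (continuous_fst.comp hcz).inner (continuous_snd.comp hcz)
    · exact continuous_const.max hf
    · intro u
      have : ρa ≤ max ρa ‖(Φ u z).1‖ := le_max_left _ _
      linarith
  have hder : ∀ u ∈ Ioo u1 u2, HasDerivAt (fun s => σ * ‖(Φ s z).1‖) (φ u) u := by
    intro u hu
    have hu' : u ∈ Ioo α β := ⟨lt_of_le_of_lt hu1 hu.1, lt_of_lt_of_le hu.2 hu2⟩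
    have hne : (Φ u z).1 ≠ 0 := by
      intro h0
      have := (hbt u hu).1
      simp only [h0, norm_zero] at this
      linarith
    have h7 := (h5 n r0 r1 𝒢 H Φ hS.fl z u hn (by
      intro s hs
      have hs' : s ∈ Icc α β := by
        rcases le_total 0 u with h | h
        · rw [uIcc_of_le h] at hs
          exact ⟨hα.le.trans hs.1, hs.2.trans hu'.2.le⟩
        · rw [uIcc_of_ge h] at hs
          exact ⟨hu'.1.le.trans hs.1, hs.2.trans hβ.le⟩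
      exact lt_of_le_of_lt (hin s hs').1 hS.Rr) hne).1
    have h8 : max ρa ‖(Φ u z).1‖ = ‖(Φ u z).1‖ := max_eq_right (hbt u hu).1.le
    rw [hφ]
    simp only [h8]
    exact h7.const_mul σ
  have hint : ρb - ρa ≤ ∫ u in u1..u2, φ u := by
    refine hdiff.trans ?_
    apply intervalIntegral.sub_le_integral_of_hasDeriv_right_of_le h12.le
      (g' := φ) (continuous_const.mul hf).continuousOn
    · intro u hu
      exact (hder u hu).hasDerivWithinAt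
    · exact hφc.continuousOn.integrableOn_Icc
    · intro u _
      exact le_rfl
  rw [intervalIntegral.integral_of_le h12.le, integral_Ioc_eq_integral_Ioo] at hint
  have h9 : ENNReal.ofReal (ρb - ρa) ≤ ∫⁻ u in Ioo u1 u2, ENNReal.ofReal (φ u) := by
    refine (ENNReal.ofReal_le_ofReal hint).trans (IFX_ofReal_integral_le ?_)
    exact (hφc.continuousOn.integrableOn_Icc (a := u1) (b := u2)).mono_set Ioo_subset_Icc_self
  refine h9.trans (le_of_eq ?_)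
  rw [← lintegral_const_mul' _ _ ENNReal.ofReal_ne_top]
  apply setLIntegral_congr_fun measurableSet_Ioo
  intro u hu
  have h8 : max ρa ‖(Φ u z).1‖ = ‖(Φ u z).1‖ := max_eq_right (hbt u hu).1.le
  have hspu := (h2 n r0 𝒢 L R e r1 H Φ hS z hz u (hsub hu)).2.1
  show ENNReal.ofReal (σ * (inner ℝ (Φ u z).1 (Φ u z).2 / max ρa ‖(Φ u z).1‖)) =
    ENNReal.ofReal (sp 𝒢 z) * ENNReal.ofReal (σ * rc 𝒢 (Φ u z))
  rw [← ENNReal.ofReal_mul hsp.le, h8]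
  congr 1
  unfold rc
  rw [hspu]
  have hx : ‖(Φ u z).1‖ ≠ 0 := by
    have := (hbt u hu).1
    linarith
  field_simp

private lemma IFX_half (h1 : IWN_stmt) (h2 : INV_stmt) (h3 : IME_stmt) (h4 : IMT_stmt)
    (h5 : DNM_stmt) {n : ℕ} {r0 : ℝ} {𝒢 : NChart n r0} {L R e r1 : ℝ} {H : PS n → ℝ}
    {Φ : ℝ → PS n → PS n}
    (hS : Std 𝒢 L R e r1 H Φ) (θ : En n → ℝ) (hθ : Measurable θ) {ρ ρa ρb : ℝ} (hρ : 0 < ρ) (hρa : ρ ≤ ρa) (hab : ρa < ρb)
    (hρb : ρb ≤ R) {σ : ℝ} (hσ : σ = 1 ∨ σ = -1) :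
    ENNReal.ofReal (ρb - ρa) *
        ∫⁻ z in SL 𝒢 e R ∩ Hit Φ R ρ, ENNReal.ofReal (θ z.1 / sp 𝒢 z) * (TT Φ R θ z)⁻¹ ≤
      ∫⁻ z in SL 𝒢 e R ∩ Hit Φ R ρ ∩ {z | ρa ≤ ‖z.1‖ ∧ ‖z.1‖ < ρb},
        ENNReal.ofReal (σ * rc 𝒢 z) := by
  obtain ⟨-, hSLo, -, hrc, hHit, hTT, -⟩ := h3 n r0 𝒢 L R e r1 H Φ hS
  set rc' : PS n → ℝ := (SL 𝒢 e R).indicator (rc 𝒢) with hrc'
  set A : Set (PS n) := Hit Φ R ρ ∩ {z | ρa ≤ ‖z.1‖ ∧ ‖z.1‖ < ρb} with hA
  have hAm : MeasurableSet A := by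
    apply (hHit ρ).measurableSet.inter
    exact (measurableSet_le measurable_const measurable_fst.norm).inter
      (measurableSet_lt measurable_fst.norm measurable_const)
  set K : PS n → ℝ≥0∞ := A.indicator (fun z => ENNReal.ofReal (σ * rc' z) * (TT Φ R θ z)⁻¹)
    with hK
  have hKm : Measurable K := by
    apply Measurable.indicator _ hAm
    exact (ENNReal.measurable_ofReal.comp (hrc.const_mul σ)).mul (hTT θ hθ).inv
  have hIMT := h4 n r0 𝒢 L R e r1 H Φ hS (fun z z' => K z * ENNReal.ofReal (θ z'.1)) (by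
    apply Measurable.indicator _ (hSLo.measurableSet.prod hSLo.measurableSet)
    exact (hKm.comp measurable_fst).mul
      (ENNReal.measurable_ofReal.comp (hθ.comp (measurable_fst.comp measurable_snd))))
  -- upper bound of the left side of the transport formula
  have hup : ∫⁻ z in SL 𝒢 e R, ∫⁻ u in {u | Stay Φ R z u}, K z * ENNReal.ofReal (θ (Φ u z).1) ≤
      ∫⁻ z in SL 𝒢 e R ∩ Hit Φ R ρ ∩ {z | ρa ≤ ‖z.1‖ ∧ ‖z.1‖ < ρb},
        ENNReal.ofReal (σ * rc 𝒢 z) := by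
    calc ∫⁻ z in SL 𝒢 e R, ∫⁻ u in {u | Stay Φ R z u}, K z * ENNReal.ofReal (θ (Φ u z).1)
        ≤ ∫⁻ z in SL 𝒢 e R, A.indicator (fun z => ENNReal.ofReal (σ * rc' z)) z := by
          apply lintegral_mono
          intro z
          have hcz : Continuous fun u => Φ u z :=
            hS.fl.cont.comp (continuous_id.prodMk continuous_const)
          have hm : Measurable fun u => ENNReal.ofReal (θ (Φ u z).1) :=
            ENNReal.measurable_ofReal.comp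
              (hθ.comp (continuous_fst.comp hcz).measurable)
          show ∫⁻ u in {u | Stay Φ R z u}, K z * ENNReal.ofReal (θ (Φ u z).1) ≤ _
          rw [lintegral_const_mul _ hm]
          change K z * TT Φ R θ z ≤ _
          by_cases hz : z ∈ A
          · rw [hK, indicator_of_mem hz, indicator_of_mem hz, mul_assoc]
            calc ENNReal.ofReal (σ * rc' z) * ((TT Φ R θ z)⁻¹ * TT Φ R θ z)
                ≤ ENNReal.ofReal (σ * rc' z) * 1 :=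
                  mul_le_mul_right (ENNReal.inv_mul_le_one _) _
              _ = ENNReal.ofReal (σ * rc' z) := mul_one _
          · rw [hK, indicator_of_notMem hz, indicator_of_notMem hz, zero_mul]
      _ = ∫⁻ z in A ∩ SL 𝒢 e R, ENNReal.ofReal (σ * rc' z) := by
          rw [setLIntegral_indicator hAm]
      _ = ∫⁻ z in A ∩ SL 𝒢 e R, ENNReal.ofReal (σ * rc 𝒢 z) := by
          apply setLIntegral_congr_fun (hAm.inter hSLo.measurableSet)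
          intro z hz
          show ENNReal.ofReal (σ * rc' z) = ENNReal.ofReal (σ * rc 𝒢 z)
          rw [hrc', indicator_of_mem hz.2]
      _ = ∫⁻ z in SL 𝒢 e R ∩ Hit Φ R ρ ∩ {z | ρa ≤ ‖z.1‖ ∧ ‖z.1‖ < ρb},
            ENNReal.ofReal (σ * rc 𝒢 z) := by
          have hset : A ∩ SL 𝒢 e R =
              SL 𝒢 e R ∩ Hit Φ R ρ ∩ {z | ρa ≤ ‖z.1‖ ∧ ‖z.1‖ < ρb} := by
            rw [hA, inter_comm, inter_assoc]
          rw [hset]
  refine le_trans ?_ hup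
  rw [hIMT, ← lintegral_const_mul' _ _ ENNReal.ofReal_ne_top]
  refine le_trans ?_ (lintegral_mono_set (inter_subset_left :
    SL 𝒢 e R ∩ Hit Φ R ρ ⊆ SL 𝒢 e R))
  apply setLIntegral_mono' (hSLo.measurableSet.inter (hHit ρ).measurableSet)
  intro z hz
  obtain ⟨u1, u2, hsub, hsh, hkey⟩ := IFX_key h1 h2 h5 hS hρ hρa hab hρb hσ hz.1 hz.2
  have hsp : 0 < sp 𝒢 z := lt_trans hS.epos hz.1.2.1
  calc ENNReal.ofReal (ρb - ρa) * (ENNReal.ofReal (θ z.1 / sp 𝒢 z) * (TT Φ R θ z)⁻¹)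
      ≤ (ENNReal.ofReal (sp 𝒢 z) * ∫⁻ u in Ioo u1 u2, ENNReal.ofReal (σ * rc 𝒢 (Φ u z))) *
          (ENNReal.ofReal (θ z.1 / sp 𝒢 z) * (TT Φ R θ z)⁻¹) :=
        mul_le_mul_left hkey _
    _ = (∫⁻ u in Ioo u1 u2, ENNReal.ofReal (σ * rc 𝒢 (Φ u z))) *
          ((TT Φ R θ z)⁻¹ * ENNReal.ofReal (θ z.1)) := by
        have h10 : ENNReal.ofReal (θ z.1) =
            ENNReal.ofReal (sp 𝒢 z) * ENNReal.ofReal (θ z.1 / sp 𝒢 z) := by
          rw [← ENNReal.ofReal_mul hsp.le]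
          congr 1
          field_simp
        rw [h10]
        ring
    _ ≤ ∫⁻ u in Ioo u1 u2, ENNReal.ofReal (σ * rc 𝒢 (Φ u z)) *
          ((TT Φ R θ z)⁻¹ * ENNReal.ofReal (θ z.1)) := lintegral_mul_const_le _ _
    _ = ∫⁻ u in Ioo u1 u2, K (Φ u z) * ENNReal.ofReal (θ z.1) := by
        apply setLIntegral_congr_fun measurableSet_Ioo
        intro u hu
        obtain ⟨i1, -, -, i4, i5⟩ := h2 n r0 𝒢 L R e r1 H Φ hS z hz.1 u (hsub hu)
        show ENNReal.ofReal (σ * rc 𝒢 (Φ u z)) * ((TT Φ R θ z)⁻¹ * ENNReal.ofReal (θ z.1)) =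
          K (Φ u z) * ENNReal.ofReal (θ z.1)
        have hmem : Φ u z ∈ A := ⟨(i5 ρ).2 hz.2, hsh u hu⟩
        rw [hK, indicator_of_mem hmem, i4 θ, hrc', indicator_of_mem i1, mul_assoc]
    _ ≤ ∫⁻ u in {u | Stay Φ R z u}, K (Φ u z) * ENNReal.ofReal (θ z.1) :=
        lintegral_mono_set hsub

theorem IFX (h1 : IWN_stmt) (h2 : INV_stmt) (h3 : IME_stmt) (h4 : IMT_stmt) (h5 : DNM_stmt) :
    IFX_stmt := by
  intro n r0 𝒢 L R e r1 H Φ hS θ c C hθ hc hθc ρ ρa ρb hρ hρa hab hρb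
  constructor
  · have h := IFX_half h1 h2 h3 h4 h5 hS θ hθ hρ hρa hab hρb
      (Or.inl rfl : (1 : ℝ) = 1 ∨ (1 : ℝ) = -1)
    simpa only [one_mul] using h
  · have h := IFX_half h1 h2 h3 h4 h5 hS θ hθ hρ hρa hab hρb
      (Or.inr rfl : (-1 : ℝ) = 1 ∨ (-1 : ℝ) = -1)
    simpa only [neg_mul, one_mul] using h

end Pool.Agent.CRO
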