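import Pool.Agent.helper58.CRO.SpecI

/-!
# Row INV: invariance along the segment
-/

open scoped Manifold ContDiff Topology ENNReal
open MeasureTheory Set

noncomputable section

namespace Pool.Agent.CRO

theorem INV (h1 : IWN_stmt) : INV_stmt := by
  intro n r0 𝒢 L R e r1 H Φ hS z hz u hu
  obtain ⟨α, β, hα, hβ, hst, -, -, -, -, hin⟩ := h1 n r0 𝒢 L R e r1 H Φ hS z hz
  have hadd : ∀ v, Φ v (Φ u z) = Φ (u + v) z := by
    intro v
    rw [add_comm u v, hS.fl.add]
  have huαβ : u ∈ Ioo α β := (hst u).1 hu
  have hsp : sp 𝒢 (Φ u z) = sp 𝒢 z := by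
    unfold sp
    rw [(hin u ⟨huαβ.1.le, huαβ.2.le⟩).2]
  have hmem : Φ u z ∈ SL 𝒢 e R := by
    refine ⟨hu u right_mem_uIcc, ?_, ?_⟩
    · rw [hsp]
      exact hz.2.1
    · rw [hsp]
      exact hz.2.2
  have hstay : ∀ v, Stay Φ R (Φ u z) v ↔ Stay Φ R z (u + v) := by
    intro v
    have h2 : Stay Φ R (Φ u z) v ↔ ∀ s ∈ uIcc u (u + v), ‖(Φ s z).1‖ < R := by
      unfold Stay
      constructor
      · intro h s hs
        have h3 : s - u ∈ uIcc 0 v := by
          rcases le_total 0 v with h0 | h0
          · rw [uIcc_of_le (by linarith)] at hs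
            rw [uIcc_of_le h0]
            exact ⟨by linarith [hs.1], by linarith [hs.2]⟩
          · rw [uIcc_of_ge (by linarith)] at hs
            rw [uIcc_of_ge h0]
            exact ⟨by linarith [hs.1], by linarith [hs.2]⟩
        have h4 := h (s - u) h3
        rw [hadd] at h4
        rwa [show u + (s - u) = s by ring] at h4
      · intro h s hs
        rw [hadd]
        apply h
        rcases le_total 0 v with h0 | h0
        · rw [uIcc_of_le h0] at hs
          rw [uIcc_of_le (by linarith)]
          exact ⟨by linarith [hs.1], by linarith [hs.2]⟩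
        · rw [uIcc_of_ge h0] at hs
          rw [uIcc_of_ge (by linarith)]
          exact ⟨by linarith [hs.1], by linarith [hs.2]⟩
    rw [h2]
    constructor
    · intro h s hs
      rcases uIcc_subset_uIcc_union_uIcc (b := u) hs with h3 | h3
      · exact hu s h3
      · exact h s h3
    · intro h s hs
      rcases uIcc_subset_uIcc_union_uIcc (b := (0 : ℝ)) hs with h3 | h3
      · rw [uIcc_comm] at h3
        exact hu s h3
      · exact h s h3
  refine ⟨hmem, hsp, hstay, ?_, ?_⟩
  · intro θ
    unfold TT
    have e1 : {v | Stay Φ R z v} = Ioo α β := by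
      ext v
      exact hst v
    have e2 : {v | Stay Φ R (Φ u z) v} = (fun v => u + v) ⁻¹' (Ioo α β) := by
      ext v
      show Stay Φ R (Φ u z) v ↔ u + v ∈ Ioo α β
      rw [hstay, hst]
    have hm : MeasurableSet ((fun v => u + v) ⁻¹' (Ioo α β)) :=
      measurableSet_Ioo.preimage (measurable_const_add u)
    rw [e1, e2, ← lintegral_indicator hm, ← lintegral_indicator measurableSet_Ioo]
    rw [← lintegral_add_left_eq_self
      (fun v => (Ioo α β).indicator (fun v => ENNReal.ofReal (θ (Φ v z).1)) v) u]
    apply lintegral_congr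
    intro v
    by_cases h : u + v ∈ Ioo α β
    · rw [indicator_of_mem h, indicator_of_mem (show v ∈ (fun v => u + v) ⁻¹' (Ioo α β) from h),
        hadd]
    · rw [indicator_of_notMem h,
        indicator_of_notMem (show v ∉ (fun v => u + v) ⁻¹' (Ioo α β) from h)]
  · intro ρ
    constructor
    · rintro ⟨v, hv, hv2⟩
      refine ⟨u + v, (hstay v).1 hv, ?_⟩
      rwa [hadd] at hv2
    · rintro ⟨w, hw, hw2⟩
      refine ⟨w - u, (hstay _).2 ?_, ?_⟩
      · rwa [show u + (w - u) = w by ring]
      · rw [hadd, show u + (w - u) = w by ring]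
        exact hw2

end Pool.Agent.CRO
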